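import Mathlib

set_option autoImplicit false

namespace Pool.Agent.H677_SC

/-- If `r` has denominator prime to `p` and `p ^ m * r * d` is the integer `N` for an integer `d`,
then `p ^ m` divides `N`. -/
theorem dvd_of_den {p m : ℕ} (hp : p.Prime) {r : ℚ} (hr : ¬ p ∣ r.den) {d N : ℤ}
    (h : (p : ℚ) ^ m * r * (d : ℚ) = (N : ℚ)) : (p : ℤ) ^ m ∣ N := by
  have hden : (r.den : ℚ) ≠ 0 := by exact_mod_cast r.den_nz
  have h1 : (p : ℚ) ^ m * (r.num : ℚ) * (d : ℚ) = (N : ℚ) * (r.den : ℚ) := by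
    rw [← h]
    have : r = (r.num : ℚ) / (r.den : ℚ) := (Rat.num_div_den r).symm
    have h2 : (r.num : ℚ) = r * (r.den : ℚ) := by
      field_simp
      rw [Rat.mul_den_eq_num]
    rw [h2]; ring
  have h3 : (p : ℤ) ^ m * r.num * d = N * (r.den : ℤ) := by exact_mod_cast h1
  have h4 : (p : ℤ) ^ m ∣ N * (r.den : ℤ) := ⟨r.num * d, by rw [← h3]; ring⟩
  have hcop : IsCoprime ((p : ℤ) ^ m) (r.den : ℤ) := by
    apply IsCoprime.pow_left
    rw [Nat.isCoprime_iff_coprime]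
    exact (Nat.Prime.coprime_iff_not_dvd hp).2 hr
  exact hcop.dvd_of_dvd_mul_right h4

end Pool.Agent.H677_SC
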